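import Mathlib

set_option autoImplicit false

/-!
If a piece of a subgroup `G` of a topological group `H` that contains a neighbourhood of the
identity of `G` is `Gδ`-dense in some compactification, then `G` is `Gδ`-dense in its closure.
-/

namespace Pool.Agent.Lib.MP_f8a8cb_gt

open Set Filter Topology

universe u v w

variable {H : Type u} [Group H] [TopologicalSpace H] [IsTopologicalGroup H]
  {X : Type w} [TopologicalSpace X] {K : Type v} [TopologicalSpace K]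

/-- The set `O` covers a neighbourhood of `a` in `G`. -/
def Good (G : Subgroup H) (ι : X → H) (e : X → K) (O : Set K) (a : H) : Prop :=
  ∀ᶠ g in 𝓝 a, g ∈ G → ∃ x, ι x = g ∧ e x ∈ O

omit [IsTopologicalGroup H] [TopologicalSpace X] [TopologicalSpace K] in
theorem Good.eventually {G : Subgroup H} {ι : X → H} {e : X → K} {O : Set K} {a : H}
    (h : Good G ι e O a) : ∀ᶠ b in 𝓝 a, Good G ι e O b :=
  Filter.Eventually.eventually_nhds h

omit [IsTopologicalGroup H] in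
theorem shrink [RegularSpace K] {G : Subgroup H} {ι : X → H} {e : X → K} (hι : IsInducing ι)
    (he : IsInducing e) {O : Set K} (hO : IsOpen O) {a : H} (ha : a ∈ closure (G : Set H))
    (hg : Good G ι e O a) {B : Set H} (hB : B ∈ 𝓝 a) :
    ∃ O₁ : Set K, IsOpen O₁ ∧ closure O₁ ⊆ O ∧ (∀ x, e x ∈ O₁ → ι x ∈ B) ∧
      ∃ a₁ ∈ G, a₁ ∈ B ∧ Good G ι e O₁ a₁ := by
  set A : Set H := {g | g ∈ G → ∃ x, ι x = g ∧ e x ∈ O} with hA
  have hAB : interior (A ∩ B) ∈ 𝓝 a := interior_mem_nhds.2 (inter_mem hg hB)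
  obtain ⟨g, hg1, hg2⟩ := mem_closure_iff_nhds.1 ha _ hAB
  obtain ⟨x₀, hx₀, hx₀O⟩ := (interior_subset hg1).1 hg2
  have hop : IsOpen (ι ⁻¹' interior (A ∩ B)) := isOpen_interior.preimage hι.continuous
  obtain ⟨O₂, hO₂, hO₂e⟩ := he.isOpen_iff.1 hop
  have hx2 : e x₀ ∈ O₂ := by
    have : x₀ ∈ e ⁻¹' O₂ := by rw [hO₂e]; simpa [hx₀] using hg1
    exact this
  have hn : O ∩ O₂ ∈ 𝓝 (e x₀) := (hO.inter hO₂).mem_nhds ⟨hx₀O, hx2⟩
  obtain ⟨C, hC, hCc, hCs⟩ := exists_mem_nhds_isClosed_subset hn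
  have hcl : closure (interior C) ⊆ O ∩ O₂ :=
    (closure_minimal interior_subset hCc).trans hCs
  refine ⟨interior C, isOpen_interior, hcl.trans inter_subset_left, ?_, g, hg2,
    (interior_subset hg1).2, ?_⟩
  · intro x hx
    have : x ∈ e ⁻¹' O₂ := (hcl (subset_closure hx)).2
    rw [hO₂e] at this
    exact (interior_subset this).2
  · have hop2 : IsOpen (e ⁻¹' interior C) := isOpen_interior.preimage he.continuous
    obtain ⟨A₂, hA₂, hA₂e⟩ := hι.isOpen_iff.1 hop2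
    have hgA₂ : g ∈ A₂ := by
      have : x₀ ∈ ι ⁻¹' A₂ := by rw [hA₂e]; exact mem_interior_iff_mem_nhds.2 hC
      simpa [hx₀] using this
    have h1 : A ∈ 𝓝 g := mem_of_superset (isOpen_interior.mem_nhds hg1)
      (interior_subset.trans inter_subset_left)
    filter_upwards [h1, hA₂.mem_nhds hgA₂] with g' h1 h2 h3
    obtain ⟨x, hx, -⟩ := h1 h3
    refine ⟨x, hx, ?_⟩
    have : x ∈ ι ⁻¹' A₂ := by simpa [hx] using h2
    rw [hA₂e] at this
    exact this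

/-- The invariant of the recursive construction. -/
def Inv (G : Subgroup H) (ι : X → H) (e : X → K) (h : H) (p : Set K × Set K) : Prop :=
  IsOpen p.1 ∧ IsOpen p.2 ∧
    ∃ a ∈ closure (G : Set H), Good G ι e p.1 a ∧ Good G ι e p.2 (h⁻¹ * a)

theorem step [RegularSpace K] {G : Subgroup H} {ι : X → H} {e : X → K} (hι : IsInducing ι)
    (he : IsInducing e) {h : H} (hh : h ∈ closure (G : Set H)) {N : Set H} (hN : N ∈ 𝓝 (1 : H))
    (p : Set K × Set K) (hp : Inv G ι e h p) :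
    ∃ q : Set K × Set K, Inv G ι e h q ∧ closure q.1 ⊆ p.1 ∧ closure q.2 ⊆ p.2 ∧
      ∀ x x', e x ∈ q.1 → e x' ∈ q.2 → ι x * (h * ι x')⁻¹ ∈ N := by
  obtain ⟨hO, hO', a, ha, hg, hg'⟩ := hp
  have hsub : ∀ y z : H, y ∈ closure (G : Set H) → z ∈ closure (G : Set H) →
      y * z ∈ closure (G : Set H) := fun y z hy hz => G.topologicalClosure.mul_mem hy hz
  have hinv : h⁻¹ ∈ closure (G : Set H) := G.topologicalClosure.inv_mem hh
  obtain ⟨M₀, hM₀, hMN⟩ : ∃ M ∈ 𝓝 a, ∀ y ∈ M, ∀ z ∈ M, y * z⁻¹ ∈ N := by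
    have hc : ContinuousAt (fun p : H × H => p.1 * p.2⁻¹) (a, a) := by fun_prop
    have : (fun p : H × H => p.1 * p.2⁻¹) ⁻¹' N ∈ 𝓝 (a, a) := hc (by simpa using hN)
    obtain ⟨s, hs, t, ht, hst⟩ := mem_nhds_prod_iff.1 this
    exact ⟨s ∩ t, inter_mem hs ht, fun y hy z hz => hst (mk_mem_prod hy.1 hz.2)⟩
  set M := interior M₀ with hM
  have hMa : M ∈ 𝓝 a := interior_mem_nhds.2 hM₀
  have hB : {b | b ∈ M ∧ Good G ι e p.2 (h⁻¹ * b)} ∈ 𝓝 a := by
    have hc : ContinuousAt (fun b : H => h⁻¹ * b) a := by fun_prop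
    filter_upwards [hMa, hc hg'.eventually] with b h1 h2
    exact ⟨h1, h2⟩
  obtain ⟨O₁, hO₁, hcl₁, hin₁, a₁, ha₁G, ⟨ha₁M, ha₁g⟩, hgood₁⟩ := shrink hι he hO ha hg hB
  have hB' : {b | h * b ∈ M ∧ Good G ι e O₁ (h * b)} ∈ 𝓝 (h⁻¹ * a₁) := by
    have hc : ContinuousAt (fun b : H => h * b) (h⁻¹ * a₁) := by fun_prop
    have h1 : {c | c ∈ M ∧ Good G ι e O₁ c} ∈ 𝓝 (h * (h⁻¹ * a₁)) := by
      rw [mul_inv_cancel_left]
      filter_upwards [isOpen_interior.mem_nhds ha₁M, hgood₁.eventually] with c h1 h2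
      exact ⟨h1, h2⟩
    exact hc h1
  obtain ⟨O₂, hO₂, hcl₂, hin₂, a₂, ha₂G, ⟨-, ha₂g⟩, hgood₂⟩ :=
    shrink hι he hO' (hsub _ _ hinv (subset_closure ha₁G)) ha₁g hB'
  refine ⟨(O₁, O₂), ⟨hO₁, hO₂, h * a₂, hsub _ _ hh (subset_closure ha₂G), ha₂g, ?_⟩, hcl₁, hcl₂, ?_⟩
  · simpa using hgood₂
  · intro x x' hx hx'
    exact hMN _ (interior_subset (hin₁ x hx).1) _ (interior_subset (hin₂ x' hx').1)

omit [IsTopologicalGroup H] [TopologicalSpace X] [TopologicalSpace K] in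
theorem Good.nonempty {G : Subgroup H} {ι : X → H} {e : X → K} {O : Set K} {a : H}
    (ha : a ∈ closure (G : Set H)) (h : Good G ι e O a) : O.Nonempty := by
  obtain ⟨g, hg1, hg2⟩ := mem_closure_iff_nhds.1 ha _ h
  obtain ⟨x, -, hx⟩ := hg1 hg2
  exact ⟨_, hx⟩

theorem nested_nonempty [CompactSpace K] (O : ℕ → Set K) (hne : ∀ n, (O n).Nonempty)
    (hcl : ∀ n, closure (O (n + 1)) ⊆ O n) : (⋂ n, O n).Nonempty := by
  have h := IsCompact.nonempty_iInter_of_sequence_nonempty_isCompact_isClosed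
    (fun n => closure (O n)) (fun n => (hcl n).trans subset_closure)
    (fun n => (hne n).mono subset_closure) isClosed_closure.isCompact (fun _ => isClosed_closure)
  obtain ⟨y, hy⟩ := h
  refine ⟨y, mem_iInter.2 fun n => hcl n (mem_iInter.1 hy (n + 1))⟩

theorem gdelta_dense_near [CompactSpace K] [T2Space K] {G : Subgroup H} {ι : X → H} {e : X → K}
    (hι : IsInducing ι) (hιG : ∀ x, ι x ∈ G) (he : IsInducing e)
    (hδ : ∀ S : Set K, IsGδ S → S.Nonempty → ∃ x, e x ∈ S)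
    {h : H} (hh : h ∈ closure (G : Set H)) (h0 : Inv G ι e h (univ, univ))
    (N : ℕ → Set H) (hN : ∀ n, N n ∈ 𝓝 (1 : H)) :
    ∃ g ∈ G, ∀ n, g * h⁻¹ ∈ N n := by
  choose F hF using fun n p hp => step hι he hh (hN n) p hp
  let s : ℕ → {p : Set K × Set K // Inv G ι e h p} := fun n =>
    Nat.rec ⟨(univ, univ), h0⟩ (fun n p => ⟨F n p.1 p.2, (hF n p.1 p.2).1⟩) n
  have hs : ∀ n, (s (n + 1)).1 = F n (s n).1 (s n).2 := fun n => rfl
  have hinv : h⁻¹ ∈ closure (G : Set H) := G.topologicalClosure.inv_mem hh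
  have hne1 : ∀ n, (s n).1.1.Nonempty := fun n => by
    obtain ⟨-, -, a, ha, hg, -⟩ := (s n).2
    exact hg.nonempty ha
  have hne2 : ∀ n, (s n).1.2.Nonempty := fun n => by
    obtain ⟨-, -, a, ha, -, hg⟩ := (s n).2
    exact hg.nonempty (G.topologicalClosure.mul_mem hinv ha)
  have h1 := nested_nonempty (fun n => (s n).1.1) hne1
    (fun n => by rw [hs]; exact (hF n _ _).2.1)
  have h2 := nested_nonempty (fun n => (s n).1.2) hne2
    (fun n => by rw [hs]; exact (hF n _ _).2.2.1)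
  obtain ⟨x, hx⟩ := hδ _ (IsGδ.iInter_of_isOpen fun n => (s n).2.1) h1
  obtain ⟨x', hx'⟩ := hδ _ (IsGδ.iInter_of_isOpen fun n => (s n).2.2.1) h2
  refine ⟨ι x * (ι x')⁻¹, G.mul_mem (hιG x) (G.inv_mem (hιG x')), fun n => ?_⟩
  have := (hF n (s n).1 (s n).2).2.2.2 x x' (mem_iInter.1 hx (n + 1)) (mem_iInter.1 hx' (n + 1))
  simpa [mul_assoc] using this

/-- `G` meets every `Gδ` set around a point of its closure. -/
theorem gdelta_dense [CompactSpace K] [T2Space K] {G : Subgroup H} {ι : X → H} {e : X → K}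
    (hι : IsInducing ι) (hιG : ∀ x, ι x ∈ G) (he : IsInducing e)
    (hδ : ∀ S : Set K, IsGδ S → S.Nonempty → ∃ x, e x ∈ S)
    {W : Set H} (hW : IsOpen W) (h1 : (1 : H) ∈ W) (hWG : ∀ g ∈ W, g ∈ G → ∃ x, ι x = g)
    {h : H} (hh : h ∈ closure (G : Set H))
    (N : ℕ → Set H) (hN : ∀ n, N n ∈ 𝓝 (1 : H)) :
    ∃ g ∈ G, ∀ n, g * h⁻¹ ∈ N n := by
  have hgood : ∀ a ∈ W, Good G ι e univ a := by
    intro a ha
    filter_upwards [hW.mem_nhds ha] with g h2 h3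
    obtain ⟨x, hx⟩ := hWG g h2 h3
    exact ⟨x, hx, mem_univ _⟩
  have hc : ContinuousAt (fun g : H => h * g⁻¹) h := by fun_prop
  have hn : (fun g : H => h * g⁻¹) ⁻¹' W ∈ 𝓝 h := hc (by simpa using hW.mem_nhds h1)
  obtain ⟨g₁, hg₁W, hg₁G⟩ := mem_closure_iff_nhds.1 hh _ hn
  have hh' : h * g₁⁻¹ ∈ closure (G : Set H) :=
    G.topologicalClosure.mul_mem hh (subset_closure (G.inv_mem hg₁G))
  obtain ⟨g, hg, hgN⟩ := gdelta_dense_near hι hιG he hδ hh'
    ⟨isOpen_univ, isOpen_univ, h * g₁⁻¹, hh', hgood _ hg₁W, by simpa using hgood _ h1⟩ N hN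
  exact ⟨g * g₁, G.mul_mem hg hg₁G, fun n => by simpa [mul_assoc] using hgN n⟩

/-- If `G` is `Gδ`-dense in its closure, then the trace on `G` of a relatively compact open set
has pseudocompact closure in `G`. -/
theorem bounded_of_gdelta_dense {G : Subgroup H}
    (hd : ∀ h ∈ closure (G : Set H), ∀ N : ℕ → Set H, (∀ n, N n ∈ 𝓝 (1 : H)) →
      ∃ g ∈ G, ∀ n, g * h⁻¹ ∈ N n)
    {W C : Set H} (hW : IsOpen W) (hC : IsCompact C) (hWC : W ⊆ C)
    (f : closure (((↑) : G → H) ⁻¹' W) → ℝ) (hf : Continuous f) : ∃ M, ∀ x, |f x| ≤ M := by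
  by_contra hcon
  push Not at hcon
  let V : Set G := ((↑) : G → H) ⁻¹' W
  let ι : closure V → H := fun x => (x.1 : H)
  have hι : IsInducing ι := IsInducing.subtypeVal.comp IsInducing.subtypeVal
  have hB : ∀ n : ℕ, ∃ B : Set H, IsOpen B ∧ B ⊆ W ∧ (∀ x, ι x ∈ B → (n : ℝ) < |f x|) ∧
      ∃ b ∈ G, b ∈ B := by
    intro n
    have hop : IsOpen {x | (n : ℝ) < |f x|} := isOpen_lt continuous_const hf.abs
    obtain ⟨B, hB, hBe⟩ := hι.isOpen_iff.1 hop
    obtain ⟨x, hx⟩ := hcon n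
    have hxB : x ∈ ι ⁻¹' B := by rw [hBe]; exact hx
    have hn : ((↑) : G → H) ⁻¹' B ∈ 𝓝 x.1 := (hB.preimage continuous_subtype_val).mem_nhds hxB
    obtain ⟨b, hb1, hb2⟩ := mem_closure_iff_nhds.1 x.2 _ hn
    refine ⟨B ∩ W, hB.inter hW, inter_subset_right, fun y hy => ?_, b, b.2, hb1, hb2⟩
    have : y ∈ ι ⁻¹' B := hy.1
    rw [hBe] at this
    exact this
  choose B hBo hBW hBf b hbG hbB using hB
  obtain ⟨c, -, hc⟩ := hC.exists_mapClusterPt (f := atTop) (u := b)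
    (by rw [le_principal_iff, mem_map]; exact Eventually.of_forall fun n => hWC (hBW n (hbB n)))
  have hcG : c ∈ closure (G : Set H) := by
    rw [mem_closure_iff_nhds]
    intro t ht
    obtain ⟨n, hn⟩ := (hc.frequently ht).exists
    exact ⟨b n, hn, hbG n⟩
  obtain ⟨g, hgG, hg⟩ := hd c hcG (fun n => {k | k * b n ∈ B n}) (fun n => by
    have hcn : ContinuousAt (fun k : H => k * b n) 1 := by fun_prop
    exact hcn (by simpa using (hBo n).mem_nhds (hbB n)))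
  have key : ∀ A ∈ 𝓝 g, ∀ n₀ : ℕ, ∃ n ≥ n₀, ∃ g' ∈ G, g' ∈ A ∧ g' ∈ B n := by
    intro A hA n₀
    have hcn : ContinuousAt (fun y : H => g * c⁻¹ * y) c := by fun_prop
    have h1 : (fun y : H => g * c⁻¹ * y) ⁻¹' interior A ∈ 𝓝 c :=
      hcn (by simpa using interior_mem_nhds.2 hA)
    obtain ⟨n, hn1, hn2⟩ := ((hc.frequently h1).and_eventually (eventually_ge_atTop n₀)).exists
    have hmem : g * c⁻¹ * b n ∈ closure (G : Set H) :=
      G.topologicalClosure.mul_mem (G.topologicalClosure.mul_mem (subset_closure hgG)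
        (G.topologicalClosure.inv_mem hcG)) (subset_closure (hbG n))
    obtain ⟨g', hg'1, hg'2⟩ := mem_closure_iff_nhds.1 hmem _
      ((isOpen_interior.inter (hBo n)).mem_nhds ⟨hn1, hg n⟩)
    exact ⟨n, hn2, g', hg'2, interior_subset hg'1.1, hg'1.2⟩
  have hgV : (⟨g, hgG⟩ : G) ∈ closure V := by
    rw [mem_closure_iff_nhds]
    intro t ht
    obtain ⟨A, hA, hAt⟩ := (mem_nhds_subtype _ _ _).1 ht
    obtain ⟨n, -, g', hg'G, h1, h2⟩ := key A hA 0
    exact ⟨⟨g', hg'G⟩, hAt h1, hBW n h2⟩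
  let x₀ : closure V := ⟨⟨g, hgG⟩, hgV⟩
  have hop : IsOpen {x | |f x| < |f x₀| + 1} := isOpen_lt hf.abs continuous_const
  obtain ⟨A, hA, hAe⟩ := hι.isOpen_iff.1 hop
  have hgA : g ∈ A := by
    have : x₀ ∈ ι ⁻¹' A := by rw [hAe]; exact lt_add_one |f x₀|
    exact this
  obtain ⟨n₀, hn₀⟩ := exists_nat_ge (|f x₀| + 1)
  obtain ⟨n, hn, g', hg'G, h1, h2⟩ := key A (hA.mem_nhds hgA) n₀
  let y : closure V := ⟨⟨g', hg'G⟩, subset_closure (hBW n h2)⟩
  have hy1 : y ∈ ι ⁻¹' A := h1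
  rw [hAe] at hy1
  have hy2 := hBf n y h2
  have hy3 : (n₀ : ℝ) ≤ n := by exact_mod_cast hn
  have hy4 : |f y| < |f x₀| + 1 := hy1
  linarith

end Pool.Agent.Lib.MP_f8a8cb_gt
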